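import Mathlib

/-!
# Leonard systems: definitions and cyclic vectors
-/

namespace Pool.Agent.Q87.Leonard

open Polynomial

/-- `E` is an ordering of the primitive idempotents of the multiplicity-free matrix `X`: there
are `d + 1` mutually distinct eigenvalues `θ i` of `X` and `E i` is the product of the matrices
`(X - θ j) / (θ i - θ j)` over all `j ≠ i`. -/
def PrimIdem {K : Type*} [Field K] {d : ℕ} (X : Matrix (Fin (d + 1)) (Fin (d + 1)) K)
    (E : Fin (d + 1) → Matrix (Fin (d + 1)) (Fin (d + 1)) K) : Prop :=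
  ∃ θ : Fin (d + 1) → K, Function.Injective θ ∧
    (∀ i, ∃ v : Fin (d + 1) → K, v ≠ 0 ∧ X.mulVec v = θ i • v) ∧
    ∀ i, E i = aeval X (∏ j ∈ Finset.univ.erase i, C (θ i - θ j)⁻¹ * (Polynomial.X - C (θ j)))

/-- `(A; B; E; F)` is a Leonard system of `(d + 1) × (d + 1)` matrices (with `B`, `F i` in the
role of `A*`, `E*_i`). -/
structure IsLeonardSystem {K : Type*} [Field K] {d : ℕ}
    (A B : Matrix (Fin (d + 1)) (Fin (d + 1)) K)
    (E F : Fin (d + 1) → Matrix (Fin (d + 1)) (Fin (d + 1)) K) : Prop where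
  primA : PrimIdem A E
  primB : PrimIdem B F
  farE : ∀ i j : Fin (d + 1), ((i : ℕ) + 1 < j ∨ (j : ℕ) + 1 < i) → E i * B * E j = 0
  nearE : ∀ i j : Fin (d + 1), ((i : ℕ) + 1 = j ∨ (j : ℕ) + 1 = i) → E i * B * E j ≠ 0
  farF : ∀ i j : Fin (d + 1), ((i : ℕ) + 1 < j ∨ (j : ℕ) + 1 < i) → F i * A * F j = 0
  nearF : ∀ i j : Fin (d + 1), ((i : ℕ) + 1 = j ∨ (j : ℕ) + 1 = i) → F i * A * F j ≠ 0

/-- The eigenbasis belonging to a system of primitive idempotents. -/
lemma PrimIdem.exists_basis {K : Type*} [Field K] {d : ℕ}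
    {X : Matrix (Fin (d + 1)) (Fin (d + 1)) K}
    {E : Fin (d + 1) → Matrix (Fin (d + 1)) (Fin (d + 1)) K} (h : PrimIdem X E) :
    ∃ (θ : Fin (d + 1) → K) (b : Module.Basis (Fin (d + 1)) K (Fin (d + 1) → K)),
      Function.Injective θ ∧ (∀ i, X.mulVec (b i) = θ i • b i) ∧
      ∀ i x, (E i).mulVec x = b.repr x i • b i := by
  classical
  obtain ⟨θ, hθ, hv, hE⟩ := h
  choose v hv0 hvX using hv
  have hli : LinearIndependent K v := by
    refine Module.End.eigenvectors_linearIndependent' (Matrix.toLin' X) θ hθ v ?_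
    intro i
    rw [Module.End.hasEigenvector_iff, Module.End.mem_eigenspace_iff]
    exact ⟨by rw [Matrix.toLin'_apply]; exact hvX i, hv0 i⟩
  let b : Module.Basis (Fin (d + 1)) K (Fin (d + 1) → K) :=
    basisOfLinearIndependentOfCardEqFinrank hli (by simp)
  have hb : ∀ i, b i = v i := fun i => by
    simp [b]
  refine ⟨θ, b, hθ, fun i => by rw [hb]; exact hvX i, ?_⟩
  -- polynomials in `X` act on eigenvectors by scalars
  have hpoly : ∀ (p : K[X]) (j : Fin (d + 1)), (aeval X p).mulVec (b j) = p.eval (θ j) • b j := by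
    intro p j
    rw [hb]
    induction p using Polynomial.induction_on' with
    | add p q hp hq =>
      rw [map_add, Matrix.add_mulVec, hp, hq, eval_add, add_smul]
    | monomial n a =>
      rw [aeval_monomial, eval_monomial]
      have : ∀ n : ℕ, (X ^ n).mulVec (v j) = θ j ^ n • v j := by
        intro n
        induction n with
        | zero => simp
        | succ n ih =>
          rw [pow_succ, ← Matrix.mulVec_mulVec, hvX, Matrix.mulVec_smul, ih, smul_smul, pow_succ,
            mul_comm]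
      rw [← Matrix.mulVec_mulVec, this, Matrix.mulVec_smul, Algebra.algebraMap_eq_smul_one,
        Matrix.smul_mulVec, Matrix.one_mulVec, smul_smul, mul_comm]
  intro i x
  have hEb : ∀ j, (E i).mulVec (b j) = if i = j then b j else 0 := by
    intro j
    rw [hE, hpoly]
    by_cases hij : i = j
    · subst hij
      rw [if_pos rfl, eval_prod]
      have : ∏ j ∈ Finset.univ.erase i, eval (θ i) (C (θ i - θ j)⁻¹ * (Polynomial.X - C (θ j)))
          = 1 := by
        refine Finset.prod_eq_one ?_
        intro j hj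
        have hne : θ i - θ j ≠ 0 := by
          rw [sub_ne_zero]
          exact fun h => (Finset.ne_of_mem_erase hj) (hθ h).symm
        simp [inv_mul_cancel₀ hne]
      rw [this, one_smul]
    · rw [if_neg hij, eval_prod]
      have : ∏ k ∈ Finset.univ.erase i, eval (θ j) (C (θ i - θ k)⁻¹ * (Polynomial.X - C (θ k)))
          = 0 := by
        refine Finset.prod_eq_zero (i := j) ?_ ?_
        · exact Finset.mem_erase.2 ⟨fun h => hij h.symm, Finset.mem_univ _⟩
        · simp
      rw [this, zero_smul]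
  conv_lhs => rw [← b.sum_repr x]
  rw [Matrix.mulVec_sum]
  rw [Finset.sum_eq_single i]
  · rw [Matrix.mulVec_smul, hEb, if_pos rfl]
  · intro j _ hj
    rw [Matrix.mulVec_smul, hEb, if_neg (fun h => hj h.symm), smul_zero]
  · intro h; exact absurd (Finset.mem_univ _) h

section Cyclic

variable {K V : Type*} [Field K] [AddCommGroup V] [Module K V] {d : ℕ}

/-- The vectors `p(A) v` with `p` a polynomial of degree at most `r`. -/
noncomputable def Pol (A : Module.End K V) (v : V) (r : ℕ) : Submodule K V :=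
  (degreeLT K (r + 1)).map ((LinearMap.applyₗ v).comp (aeval A : K[X] →ₐ[K] _).toLinearMap)

lemma mem_Pol {A : Module.End K V} {v : V} {r : ℕ} {x : V} :
    x ∈ Pol A v r ↔ ∃ p : K[X], p ∈ degreeLT K (r + 1) ∧ aeval A p v = x := by
  simp [Pol, Submodule.mem_map]

lemma Pol_mono (A : Module.End K V) (v : V) {r s : ℕ} (h : r ≤ s) : Pol A v r ≤ Pol A v s := by
  refine Submodule.map_mono ?_
  intro p hp
  rw [mem_degreeLT] at hp ⊢
  refine lt_of_lt_of_le hp ?_
  exact_mod_cast Nat.succ_le_succ h

lemma apply_mem_Pol (A : Module.End K V) (v : V) {r : ℕ} {x : V} (h : x ∈ Pol A v r) :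
    A x ∈ Pol A v (r + 1) := by
  rw [mem_Pol] at h ⊢
  obtain ⟨p, hp, rfl⟩ := h
  refine ⟨X * p, ?_, by simp⟩
  rw [mem_degreeLT] at hp ⊢
  by_cases hp0 : p = 0
  · subst hp0
    simp only [mul_zero, degree_zero]
    exact WithBot.bot_lt_coe _
  · rw [degree_eq_natDegree hp0] at hp
    rw [degree_eq_natDegree (mul_ne_zero X_ne_zero hp0), natDegree_X_mul hp0]
    have : p.natDegree < r + 1 := by exact_mod_cast hp
    exact_mod_cast Nat.succ_lt_succ this

/-- If `A` is lower Hessenberg with nonzero subdiagonal in the basis `c`, then `c k` is `p(A) c 0`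
for a polynomial of degree at most `k`. -/
lemma basis_mem_Pol (A : Module.End K V) (c : Module.Basis (Fin (d + 1)) K V)
    (h0 : ∀ i j : Fin (d + 1), (j : ℕ) + 1 < i → c.repr (A (c j)) i = 0)
    (h1 : ∀ i j : Fin (d + 1), (j : ℕ) + 1 = i → c.repr (A (c j)) i ≠ 0) :
    ∀ (n : ℕ) (hn : n < d + 1), c ⟨n, hn⟩ ∈ Pol A (c 0) n := by
  intro n
  induction n using Nat.strong_induction_on with
  | _ n ih =>
    intro hn
    rcases n with _ | m
    · rw [mem_Pol]
      refine ⟨1, ?_, by simp⟩
      rw [mem_degreeLT]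
      refine lt_of_le_of_lt degree_one_le ?_
      simp
    · have hm : m < d + 1 := by omega
      have hAm : A (c ⟨m, hm⟩) ∈ Pol A (c 0) (m + 1) :=
        apply_mem_Pol A _ (ih m (Nat.lt_succ_self m) hm)
      have hsum := c.sum_repr (A (c ⟨m, hm⟩))
      have hsplit : A (c ⟨m, hm⟩) = c.repr (A (c ⟨m, hm⟩)) ⟨m + 1, hn⟩ • c ⟨m + 1, hn⟩ +
          ∑ i ∈ Finset.univ.erase (⟨m + 1, hn⟩ : Fin (d + 1)),
            c.repr (A (c ⟨m, hm⟩)) i • c i := by
        rw [Finset.add_sum_erase Finset.univ
          (fun i => c.repr (A (c ⟨m, hm⟩)) i • c i) (Finset.mem_univ _), hsum]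
      have hrest : ∑ i ∈ Finset.univ.erase (⟨m + 1, hn⟩ : Fin (d + 1)),
            c.repr (A (c ⟨m, hm⟩)) i • c i ∈ Pol A (c 0) (m + 1) := by
        refine Submodule.sum_mem _ ?_
        intro i hi
        have hine : i ≠ ⟨m + 1, hn⟩ := Finset.ne_of_mem_erase hi
        rcases lt_trichotomy (i : ℕ) (m + 1) with hlt | heq | hgt
        · refine Submodule.smul_mem _ _ ?_
          have := ih i hlt i.2
          exact Pol_mono A _ hlt.le (by simpa using this)
        · exact absurd (Fin.ext heq) hine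
        · rw [h0 i ⟨m, hm⟩ (by simpa using hgt), zero_smul]
          exact Submodule.zero_mem _
      have hne : c.repr (A (c ⟨m, hm⟩)) ⟨m + 1, hn⟩ ≠ 0 := h1 _ _ (by simp)
      have hmem : c.repr (A (c ⟨m, hm⟩)) ⟨m + 1, hn⟩ • c ⟨m + 1, hn⟩ ∈ Pol A (c 0) (m + 1) := by
        have : c.repr (A (c ⟨m, hm⟩)) ⟨m + 1, hn⟩ • c ⟨m + 1, hn⟩ = A (c ⟨m, hm⟩) -
          ∑ i ∈ Finset.univ.erase (⟨m + 1, hn⟩ : Fin (d + 1)),
            c.repr (A (c ⟨m, hm⟩)) i • c i := by
          rw [eq_sub_iff_add_eq, ← hsplit]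
        rw [this]
        exact Submodule.sub_mem _ hAm hrest
      exact (Submodule.smul_mem_iff _ hne).1 hmem

lemma repr_aeval (A : Module.End K V) (b : Module.Basis (Fin (d + 1)) K V)
    (θ : Fin (d + 1) → K) (hb : ∀ i, A (b i) = θ i • b i) (p : K[X]) (x : V)
    (j : Fin (d + 1)) : b.repr (aeval A p x) j = p.eval (θ j) * b.repr x j := by
  have hx : ∀ y, b.repr (A y) j = θ j * b.repr y j := by
    intro y
    conv_lhs => rw [← b.sum_repr y]
    rw [map_sum, map_sum, Finsupp.finsetSum_apply]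
    rw [Finset.sum_eq_single j]
    · rw [map_smul, hb]
      simp [mul_comm]
    · intro i _ hi
      rw [map_smul, hb]
      simp [Finsupp.single_apply, hi]
    · intro h; exact absurd (Finset.mem_univ _) h
  induction p using Polynomial.induction_on' with
  | add p q hp hq =>
    rw [map_add, LinearMap.add_apply, map_add, Finsupp.add_apply, hp, hq, eval_add, add_mul]
  | monomial n a =>
    rw [aeval_monomial, eval_monomial]
    have : ∀ n : ℕ, ∀ y, b.repr ((A ^ n) y) j = θ j ^ n * b.repr y j := by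
      intro n
      induction n with
      | zero => intro y; simp
      | succ n ih =>
        intro y
        rw [pow_succ, Module.End.mul_apply, ih, hx, pow_succ]
        ring
    rw [Module.End.mul_apply, Algebra.algebraMap_eq_smul_one, LinearMap.smul_apply,
      Module.End.one_apply, map_smul, Finsupp.smul_apply, this, smul_eq_mul]
    ring

/-- The endpoint vector `c 0` has all its coordinates in the eigenbasis of `A` nonzero. -/
lemma repr_ne_zero (A : Module.End K V) (b c : Module.Basis (Fin (d + 1)) K V)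
    (θ : Fin (d + 1) → K) (hb : ∀ i, A (b i) = θ i • b i)
    (h0 : ∀ i j : Fin (d + 1), (j : ℕ) + 1 < i → c.repr (A (c j)) i = 0)
    (h1 : ∀ i j : Fin (d + 1), (j : ℕ) + 1 = i → c.repr (A (c j)) i ≠ 0)
    (j : Fin (d + 1)) : b.repr (c 0) j ≠ 0 := by
  intro hj
  have hall : ∀ k, b.repr (c k) j = 0 := by
    intro k
    have := basis_mem_Pol A c h0 h1 k k.2
    rw [mem_Pol] at this
    obtain ⟨p, _, hp⟩ := this
    have h2 : c k = aeval A p (c 0) := by simpa using hp.symm
    rw [h2, repr_aeval A b θ hb, hj, mul_zero]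
  have hz : b.coord j = 0 := by
    refine c.ext ?_
    intro k
    simpa using hall k
  have h3 : b.coord j (b j) = 1 := by simp
  rw [hz] at h3
  simp at h3

/-- The main intersection property. -/
lemma eq_zero_of_mem (A : Module.End K V) (b c : Module.Basis (Fin (d + 1)) K V)
    (θ : Fin (d + 1) → K) (hθ : Function.Injective θ) (hb : ∀ i, A (b i) = θ i • b i)
    (h0 : ∀ i j : Fin (d + 1), (j : ℕ) + 1 < i → c.repr (A (c j)) i = 0)
    (h1 : ∀ i j : Fin (d + 1), (j : ℕ) + 1 = i → c.repr (A (c j)) i ≠ 0)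
    {r : ℕ} (L : Finset (Fin (d + 1))) (hL : L.card + r ≤ d) (x : V)
    (hx1 : ∀ i : Fin (d + 1), r < (i : ℕ) → c.repr x i = 0)
    (hx2 : ∀ j, j ∉ L → b.repr x j = 0) : x = 0 := by
  classical
  have hxP : x ∈ Pol A (c 0) r := by
    rw [← c.sum_repr x]
    refine Submodule.sum_mem _ ?_
    intro i _
    by_cases hi : r < (i : ℕ)
    · rw [hx1 i hi, zero_smul]; exact Submodule.zero_mem _
    · refine Submodule.smul_mem _ _ ?_
      have := basis_mem_Pol A c h0 h1 i i.2
      exact Pol_mono A _ (not_lt.1 hi) (by simpa using this)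
  rw [mem_Pol] at hxP
  obtain ⟨p, hp, rfl⟩ := hxP
  have hroots : ∀ j, j ∉ L → p.eval (θ j) = 0 := by
    intro j hj
    have := hx2 j hj
    rw [repr_aeval A b θ hb] at this
    rcases mul_eq_zero.1 this with h | h
    · exact h
    · exact absurd h (repr_ne_zero A b c θ hb h0 h1 j)
  have hp0 : p = 0 := by
    by_contra hne
    have hcard : (Finset.univ \ L).card ≤ p.roots.toFinset.card := by
      rw [← Finset.card_image_of_injective (Finset.univ \ L) hθ]
      refine Finset.card_le_card ?_
      intro t ht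
      rw [Finset.mem_image] at ht
      obtain ⟨j, hj, rfl⟩ := ht
      rw [Finset.mem_sdiff] at hj
      rw [Multiset.mem_toFinset, mem_roots hne]
      exact hroots j hj.2
    have h2 : p.roots.toFinset.card ≤ p.natDegree :=
      (Multiset.toFinset_card_le _).trans (card_roots' p)
    have h3 : p.natDegree < r + 1 := by
      rw [mem_degreeLT, degree_eq_natDegree hne] at hp
      exact_mod_cast hp
    rw [Finset.card_sdiff, Finset.inter_univ, Finset.card_univ, Fintype.card_fin] at hcard
    omega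
  rw [hp0]; simp

end Cyclic

lemma mul_mul_eq_zero_iff {K : Type*} [Field K] {d : ℕ}
    {A : Matrix (Fin (d + 1)) (Fin (d + 1)) K}
    {F : Fin (d + 1) → Matrix (Fin (d + 1)) (Fin (d + 1)) K}
    (c : Module.Basis (Fin (d + 1)) K (Fin (d + 1) → K))
    (hc : ∀ i x, (F i).mulVec x = c.repr x i • c i) (i j : Fin (d + 1)) :
    F i * A * F j = 0 ↔ c.repr (A.mulVec (c j)) i = 0 := by
  constructor
  · intro h
    have h1 : (F i * A * F j).mulVec (c j) = 0 := by rw [h, Matrix.zero_mulVec]
    rw [← Matrix.mulVec_mulVec, ← Matrix.mulVec_mulVec, hc j, hc i] at h1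
    simp only [Module.Basis.repr_self, Finsupp.single_eq_same, one_smul] at h1
    rcases smul_eq_zero.1 h1 with h2 | h2
    · exact h2
    · exact absurd h2 (c.ne_zero i)
  · intro h
    apply Matrix.toLin'.injective
    refine LinearMap.ext fun x => ?_
    rw [Matrix.toLin'_apply, ← Matrix.mulVec_mulVec, ← Matrix.mulVec_mulVec, hc j, hc i,
      Matrix.mulVec_smul, map_smul, Finsupp.smul_apply, h]
    simp

end Pool.Agent.Q87.Leonard
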