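import Pool.Agent.Q87.Leonard.Basic

/-!
# Irreducibility arguments for Leonard systems
-/

namespace Pool.Agent.Q87.Leonard

section

variable {K V : Type*} [Field K] [AddCommGroup V] [Module K V] {d : ℕ}

/-- An irreducible algebra of endomorphisms of a finite dimensional space which contains a map of
rank one contains every endomorphism. -/
lemma eq_top_of_rank_one [FiniteDimensional K V] (T : Subalgebra K (Module.End K V))
    (hirr : ∀ W : Submodule K V, (∀ t ∈ T, ∀ x ∈ W, t x ∈ W) → W = ⊥ ∨ W = ⊤)
    (f₀ : V →ₗ[K] K) (u₀ : V) (hf : f₀ ≠ 0) (hu : u₀ ≠ 0) (h : f₀.smulRight u₀ ∈ T) : T = ⊤ := by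
  classical
  have step1 : ∀ u, f₀.smulRight u ∈ T := by
    let W : Submodule K V :=
      { carrier := {u | f₀.smulRight u ∈ T}
        add_mem' := by
          intro a b ha hb
          have : f₀.smulRight (a + b) = f₀.smulRight a + f₀.smulRight b := by
            ext x; simp
          simpa [this] using T.add_mem ha hb
        zero_mem' := by
          have : f₀.smulRight (0 : V) = 0 := by ext x; simp
          simp [this]
        smul_mem' := by
          intro k a ha
          have : f₀.smulRight (k • a) = k • f₀.smulRight a := by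
            ext x; simp [smul_smul, mul_comm]
          simpa [this] using T.smul_mem ha k }
    have hW : ∀ t ∈ T, ∀ x ∈ W, t x ∈ W := by
      intro t ht x hx
      have : f₀.smulRight (t x) = t * f₀.smulRight x := by
        ext y; simp
      change f₀.smulRight (t x) ∈ T
      rw [this]
      exact T.mul_mem ht hx
    rcases hirr W hW with h0 | h1
    · exfalso
      have : u₀ ∈ W := h
      rw [h0, Submodule.mem_bot] at this
      exact hu this
    · intro u
      have : u ∈ W := by rw [h1]; trivial
      exact this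
  let N : Submodule K (Module.Dual K V) :=
    { carrier := {f | ∀ u, f.smulRight u ∈ T}
      add_mem' := by
        intro a b ha hb u
        have : (a + b).smulRight u = a.smulRight u + b.smulRight u := by
          ext x; simp [add_smul]
        rw [this]
        exact T.add_mem (ha u) (hb u)
      zero_mem' := by
        intro u
        have : (0 : Module.Dual K V).smulRight u = 0 := by ext x; simp
        rw [this]; exact T.zero_mem
      smul_mem' := by
        intro k a ha u
        have : (k • a).smulRight u = k • a.smulRight u := by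
          ext x; simp [smul_smul]
        rw [this]
        exact T.smul_mem (ha u) k }
  have hNt : ∀ f ∈ N, ∀ t ∈ T, f ∘ₗ t ∈ N := by
    intro f hfN t ht u
    have : (f ∘ₗ t).smulRight u = f.smulRight u * t := by
      ext x; simp
    rw [this]
    exact T.mul_mem (hfN u) ht
  have hco : N.dualCoannihilator = ⊥ := by
    have hinv : ∀ t ∈ T, ∀ x ∈ N.dualCoannihilator, t x ∈ N.dualCoannihilator := by
      intro t ht x hx
      rw [Submodule.mem_dualCoannihilator] at hx ⊢
      intro f hfN
      exact hx _ (hNt f hfN t ht)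
    rcases hirr _ hinv with h0 | h1
    · exact h0
    · exfalso
      apply hf
      ext x
      have hx : x ∈ N.dualCoannihilator := by rw [h1]; trivial
      rw [Submodule.mem_dualCoannihilator] at hx
      simpa using hx f₀ step1
  have hN : N = ⊤ := by
    have h1 : N.dualCoannihilator.dualAnnihilator = N :=
      Subspace.dualCoannihilator_dualAnnihilator_eq
    rw [hco, Submodule.dualAnnihilator_bot] at h1
    exact h1.symm
  have hall : ∀ (f : Module.Dual K V) (u : V), f.smulRight u ∈ T := by
    intro f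
    have : f ∈ N := by rw [hN]; trivial
    exact this
  rw [eq_top_iff]
  intro M _
  let c := Module.finBasis K V
  have hM : M = ∑ i, (c.coord i).smulRight (M (c i)) := by
    ext x
    rw [LinearMap.sum_apply]
    conv_lhs => rw [← c.sum_repr x, map_sum]
    refine Finset.sum_congr rfl fun i _ => ?_
    simp
  rw [hM]
  exact T.sum_mem fun i _ => hall _ _

/-- The eigenvalue and tridiagonality data of a Leonard system in terms of its two eigenbases. -/
structure Data (A B : Module.End K V) (b c : Module.Basis (Fin (d + 1)) K V) : Prop where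
  eigA : ∃ θ : Fin (d + 1) → K, Function.Injective θ ∧ ∀ i, A (b i) = θ i • b i
  eigB : ∃ θ : Fin (d + 1) → K, Function.Injective θ ∧ ∀ i, B (c i) = θ i • c i
  farA : ∀ i j : Fin (d + 1), ((i : ℕ) + 1 < j ∨ (j : ℕ) + 1 < i) → c.repr (A (c j)) i = 0
  nearA : ∀ i j : Fin (d + 1), ((i : ℕ) + 1 = j ∨ (j : ℕ) + 1 = i) → c.repr (A (c j)) i ≠ 0
  farB : ∀ i j : Fin (d + 1), ((i : ℕ) + 1 < j ∨ (j : ℕ) + 1 < i) → b.repr (B (b j)) i = 0
  nearB : ∀ i j : Fin (d + 1), ((i : ℕ) + 1 = j ∨ (j : ℕ) + 1 = i) → b.repr (B (b j)) i ≠ 0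

lemma Data.swap {A B : Module.End K V} {b c : Module.Basis (Fin (d + 1)) K V}
    (h : Data A B b c) : Data B A c b :=
  ⟨h.eigB, h.eigA, h.farB, h.nearB, h.farA, h.nearA⟩

lemma Data.rev {A B : Module.End K V} {b c : Module.Basis (Fin (d + 1)) K V}
    (h : Data A B b c) : Data A B b (c.reindex Fin.revPerm) := by
  refine ⟨h.eigA, ?_, ?_, ?_, h.farB, h.nearB⟩
  · obtain ⟨θ, h1, h2⟩ := h.eigB
    refine ⟨θ ∘ Fin.rev, h1.comp Fin.rev_injective, ?_⟩
    intro i
    simp [h2]
  · intro i j hij
    rw [Module.Basis.reindex_apply, Module.Basis.repr_reindex_apply]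
    refine h.farA _ _ ?_
    simp only [Fin.revPerm_symm, Fin.revPerm_apply, Fin.val_rev]
    omega
  · intro i j hij
    rw [Module.Basis.reindex_apply, Module.Basis.repr_reindex_apply]
    refine h.nearA _ _ ?_
    simp only [Fin.revPerm_symm, Fin.revPerm_apply, Fin.val_rev]
    omega

lemma Data.dual {A B : Module.End K V} {b c : Module.Basis (Fin (d + 1)) K V}
    (h : Data A B b c) : Data A.dualMap B.dualMap b.dualBasis c.dualBasis := by
  have eig : ∀ (M : Module.End K V) (e : Module.Basis (Fin (d + 1)) K V)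
      (θ : Fin (d + 1) → K), (∀ i, M (e i) = θ i • e i) →
      ∀ i, M.dualMap (e.dualBasis i) = θ i • e.dualBasis i := by
    intro M e θ hM i
    refine e.ext fun j => ?_
    rw [LinearMap.dualMap_apply, hM, map_smul, LinearMap.smul_apply]
    rw [Module.Basis.dualBasis_apply_self]
    by_cases hij : j = i
    · subst hij; simp
    · simp [hij]
  have tr : ∀ (M : Module.End K V) (e : Module.Basis (Fin (d + 1)) K V) (i j : Fin (d + 1)),
      e.dualBasis.repr (M.dualMap (e.dualBasis j)) i = e.repr (M (e i)) j := by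
    intro M e i j
    rw [Module.Basis.dualBasis_repr, LinearMap.dualMap_apply, Module.Basis.dualBasis_apply]
  refine ⟨?_, ?_, ?_, ?_, ?_, ?_⟩
  · obtain ⟨θ, h1, h2⟩ := h.eigA
    exact ⟨θ, h1, eig A b θ h2⟩
  · obtain ⟨θ, h1, h2⟩ := h.eigB
    exact ⟨θ, h1, eig B c θ h2⟩
  · intro i j hij; rw [tr]; exact h.farA _ _ hij.symm
  · intro i j hij; rw [tr]; exact h.nearA _ _ hij.symm
  · intro i j hij; rw [tr]; exact h.farB _ _ hij.symm
  · intro i j hij; rw [tr]; exact h.nearB _ _ hij.symm

lemma Data.ne_zero {A B : Module.End K V} {b c : Module.Basis (Fin (d + 1)) K V}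
    (h : Data A B b c) (j : Fin (d + 1)) : b.repr (c 0) j ≠ 0 := by
  obtain ⟨θ, _, h2⟩ := h.eigA
  exact repr_ne_zero A b c θ h2 (fun i j hij => h.farA i j (Or.inr hij))
    (fun i j hij => h.nearA i j (Or.inr hij)) j

lemma Data.ne_zero_last {A B : Module.End K V} {b c : Module.Basis (Fin (d + 1)) K V}
    (h : Data A B b c) (i : Fin (d + 1)) : c.repr (b (Fin.last d)) i ≠ 0 := by
  have := h.swap.rev.ne_zero i
  simpa using this

lemma Data.ne_zero_dual {A B : Module.End K V} {b c : Module.Basis (Fin (d + 1)) K V}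
    (h : Data A B b c) (j : Fin (d + 1)) : c.repr (b j) 0 ≠ 0 := by
  have := h.dual.ne_zero j
  rwa [Module.Basis.dualBasis_repr, Module.Basis.dualBasis_apply] at this

lemma Data.ne_zero_last_dual {A B : Module.End K V} {b c : Module.Basis (Fin (d + 1)) K V}
    (h : Data A B b c) (i : Fin (d + 1)) : b.repr (c i) (Fin.last d) ≠ 0 := by
  have := h.dual.ne_zero_last i
  rwa [Module.Basis.dualBasis_repr, Module.Basis.dualBasis_apply] at this

lemma Data.eq_zero {A B : Module.End K V} {b c : Module.Basis (Fin (d + 1)) K V}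
    (h : Data A B b c) (r : Fin (d + 1)) (x : V) (h1 : ∀ i, i ≤ r → c.repr x i = 0)
    (h2 : ∀ j, r ≤ j → b.repr x j = 0) : x = 0 := by
  have hr := h.rev
  obtain ⟨θ, hθ, hb⟩ := hr.eigA
  refine eq_zero_of_mem A b _ θ hθ hb (fun i j hij => hr.farA i j (Or.inr hij))
    (fun i j hij => hr.nearA i j (Or.inr hij)) (r := d - r - 1) (Finset.Iio r) ?_ x ?_ ?_
  · have := r.2
    rw [Fin.card_Iio]
    omega
  · intro i hi
    rw [Module.Basis.repr_reindex_apply]
    apply h1
    rw [Fin.le_def]
    simp only [Fin.revPerm_symm, Fin.revPerm_apply, Fin.val_rev]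
    have := r.2
    have := i.2
    omega
  · intro j hj
    apply h2
    simpa using hj

/-- A subspace invariant under the idempotents with indices at most `r` of the one kind and at
least `r` of the other kind is trivial. -/
lemma Data.irr {A B : Module.End K V} {b c : Module.Basis (Fin (d + 1)) K V}
    (h : Data A B b c) (r : Fin (d + 1)) (W : Submodule K V)
    (hF : ∀ i, i ≤ r → ∀ x ∈ W, c.repr x i • c i ∈ W)
    (hE : ∀ j, r ≤ j → ∀ x ∈ W, b.repr x j • b j ∈ W) : W = ⊥ ∨ W = ⊤ := by
  have hF' : ∀ i, i ≤ r → ∀ x ∈ W, c.repr x i ≠ 0 → c i ∈ W := fun i hi x hx hne =>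
    (Submodule.smul_mem_iff _ hne).1 (hF i hi x hx)
  have hE' : ∀ j, r ≤ j → ∀ x ∈ W, b.repr x j ≠ 0 → b j ∈ W := fun j hj x hx hne =>
    (Submodule.smul_mem_iff _ hne).1 (hE j hj x hx)
  have hlast : r ≤ Fin.last d := Fin.le_last r
  have h0 : (0 : Fin (d + 1)) ≤ r := Fin.zero_le r
  by_cases hz : ∀ x ∈ W, (∀ i, i ≤ r → c.repr x i = 0) ∧ (∀ j, r ≤ j → b.repr x j = 0)
  · left
    rw [eq_bot_iff]
    intro x hx
    rw [Submodule.mem_bot]
    exact h.eq_zero r x (hz x hx).1 (hz x hx).2
  · right
    push Not at hz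
    obtain ⟨x, hx, hxx⟩ := hz
    have claim2 : ∀ j, r ≤ j → b j ∈ W → c 0 ∈ W := fun j _ hbj =>
      hF' 0 h0 _ hbj (h.ne_zero_dual j)
    have claim1 : ∀ i, i ≤ r → c i ∈ W → b (Fin.last d) ∈ W := fun i _ hci =>
      hE' _ hlast _ hci (h.ne_zero_last_dual i)
    have hblast : b (Fin.last d) ∈ W := by
      by_cases hc : ∀ i, i ≤ r → c.repr x i = 0
      · obtain ⟨j, hj, hne⟩ := hxx hc
        exact claim1 0 h0 (claim2 j hj (hE' j hj x hx hne))
      · push Not at hc
        obtain ⟨i, hi, hne⟩ := hc
        exact claim1 i hi (hF' i hi x hx hne)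
    have hc0 : c 0 ∈ W := claim2 _ hlast hblast
    have hck : ∀ k, k ≤ r → c k ∈ W := fun k hk => hF' k hk _ hblast (h.ne_zero_last k)
    have hbk : ∀ k, r ≤ k → b k ∈ W := fun k hk => hE' k hk _ hc0 (h.ne_zero k)
    by_contra hne
    obtain ⟨f, hf0, hfW⟩ := Submodule.exists_dual_map_eq_bot_of_lt_top (lt_top_iff_ne_top.2 hne)
      inferInstance
    apply hf0
    have hfz : ∀ x ∈ W, f x = 0 := by
      intro x hx
      have : f x ∈ W.map f := Submodule.mem_map_of_mem hx
      rwa [hfW, Submodule.mem_bot] at this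
    refine h.dual.eq_zero r f ?_ ?_
    · intro i hi
      rw [Module.Basis.dualBasis_repr]
      exact hfz _ (hck i hi)
    · intro j hj
      rw [Module.Basis.dualBasis_repr]
      exact hfz _ (hbk j hj)

end

end Pool.Agent.Q87.Leonard
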