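import Mathlib

/-!
# The Krawtchouk Leonard pair and polynomials
-/

namespace Pool.Agent.Q87.Krawtchouk

open Polynomial

/-- The matrix `M` is irreducible tridiagonal: all entries at distance more than one from the
diagonal are zero, and all entries at distance one are nonzero. -/
def IrredTridiag {K : Type*} [Zero K] {n : ℕ} (M : Matrix (Fin n) (Fin n) K) : Prop :=
  (∀ i j : Fin n, ((i : ℕ) + 1 < j ∨ (j : ℕ) + 1 < i) → M i j = 0) ∧
  (∀ i j : Fin n, ((i : ℕ) + 1 = j ∨ (j : ℕ) + 1 = i) → M i j ≠ 0)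

/-- `M` is a diagonal matrix. -/
def IsDiagonal {K : Type*} [Zero K] {n : ℕ} (M : Matrix (Fin n) (Fin n) K) : Prop :=
  ∀ i j : Fin n, i ≠ j → M i j = 0

/-- The matrix representing the linear map `v ↦ X v` in the basis `b`. -/
noncomputable def rep {K : Type*} [Field K] {n : ℕ} (b : Module.Basis (Fin n) K (Fin n → K))
    (X : Matrix (Fin n) (Fin n) K) : Matrix (Fin n) (Fin n) K :=
  LinearMap.toMatrix b b (Matrix.toLin' X)

/-- There is a basis of `K^n` in which `X` is represented by a diagonal matrix and the other two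
maps are each represented by an irreducible tridiagonal matrix. -/
def DiagTri {K : Type*} [Field K] {n : ℕ} (X Y Z : Matrix (Fin n) (Fin n) K) : Prop :=
  ∃ b : Module.Basis (Fin n) K (Fin n → K),
    IsDiagonal (rep b X) ∧ IrredTridiag (rep b Y) ∧ IrredTridiag (rep b Z)

/-- `(X, Y, Z)` is a Leonard triple on `K^n`. -/
def LeonardTriple {K : Type*} [Field K] {n : ℕ} (X Y Z : Matrix (Fin n) (Fin n) K) : Prop :=
  DiagTri X Y Z ∧ DiagTri Y X Z ∧ DiagTri Z X Y

/-- The commutator of two matrices. -/
def commutatorMat {K : Type*} [Field K] {n : ℕ} (X Y : Matrix (Fin n) (Fin n) K) :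
    Matrix (Fin n) (Fin n) K := X * Y - Y * X

/-- The linear span of `I, X, Y, Z`. -/
def spanOf {K : Type*} [Field K] {n : ℕ} (X Y Z : Matrix (Fin n) (Fin n) K) :
    Submodule K (Matrix (Fin n) (Fin n) K) := Submodule.span K {1, X, Y, Z}

/-- The matrix `A`: the action of `e + f`. -/
def krawA (K : Type*) [Field K] (d : ℕ) : Matrix (Fin (d + 1)) (Fin (d + 1)) K :=
  fun i j => if (i : ℕ) + 1 = j then ((d - (i : ℕ) : ℕ) : K)
    else if (j : ℕ) + 1 = i then (((i : ℕ)) : K) else 0

/-- The matrix `A*`: the action of `h`, i.e. `diag(d, d-2, ..., -d)`. -/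
def krawB (K : Type*) [Field K] (d : ℕ) : Matrix (Fin (d + 1)) (Fin (d + 1)) K :=
  Matrix.diagonal fun i => (d : K) - 2 * (i : ℕ)

/-- The matrix `A^ε = 3 A + 4 A*`. -/
def krawZ (K : Type*) [Field K] (d : ℕ) : Matrix (Fin (d + 1)) (Fin (d + 1)) K :=
  (3 : K) • krawA K d + (4 : K) • krawB K d

variable {K : Type*} [Field K]

/-- The coordinates of a polynomial in the basis of normalised monomials. -/
noncomputable def coords (K : Type*) [Field K] (d : ℕ) : K[X] →ₗ[K] (Fin (d + 1) → K) where
  toFun p := fun i => p.coeff i / (Nat.choose d i : K)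
  map_add' p q := by ext i; simp [add_div]
  map_smul' k p := by ext i; simp [mul_div_assoc]

/-- The differential operator of `A`. -/
noncomputable def opA (K : Type*) [Field K] (d : ℕ) (p : K[X]) : K[X] :=
  derivative p + X * (C (d : K) * p - X * derivative p)

/-- The differential operator of `A*`. -/
noncomputable def opB (K : Type*) [Field K] (d : ℕ) (p : K[X]) : K[X] :=
  C (d : K) * p - 2 * (X * derivative p)

lemma opB_coords [CharZero K] (d : ℕ) (p : K[X]) :
    (krawB K d).mulVec (coords K d p) = coords K d (opB K d p) := by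
  funext i
  rw [krawB, Matrix.mulVec_diagonal]
  simp only [coords, opB, LinearMap.coe_mk, AddHom.coe_mk]
  have h2 : (2 : K[X]) = C 2 := (map_ofNat C 2).symm
  rw [coeff_sub, coeff_C_mul, h2, coeff_C_mul]
  rcases hi : (i : ℕ) with _ | m
  · simp
  · rw [coeff_X_mul, coeff_derivative]
    push_cast
    ring

lemma opA_coords [CharZero K] (d : ℕ) (p : K[X]) (hp : p.natDegree ≤ d) :
    (krawA K d).mulVec (coords K d p) = coords K d (opA K d p) := by
  funext i
  have hi := i.2
  have hch : ∀ k, k ≤ d → (Nat.choose d k : K) ≠ 0 := by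
    intro k hk
    exact_mod_cast (Nat.choose_pos hk).ne'
  -- value of the matrix vector product
  have hsum : (krawA K d).mulVec (coords K d p) i =
      (if h : (i : ℕ) + 1 < d + 1 then ((d - (i : ℕ) : ℕ) : K) *
        (p.coeff (i + 1) / (Nat.choose d (i + 1) : K)) else 0) +
      (if h : 0 < (i : ℕ) then ((i : ℕ) : K) *
        (p.coeff (i - 1) / (Nat.choose d (i - 1) : K)) else 0) := by
    rw [Matrix.mulVec, dotProduct]
    have hf : ∀ j : Fin (d + 1), krawA K d i j * coords K d p j =
        (if (j : ℕ) = (i : ℕ) + 1 then ((d - (i : ℕ) : ℕ) : K) *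
          (p.coeff (i + 1) / (Nat.choose d (i + 1) : K)) else 0) +
        (if (j : ℕ) + 1 = (i : ℕ) then ((i : ℕ) : K) *
          (p.coeff (i - 1) / (Nat.choose d (i - 1) : K)) else 0) := by
      intro j
      simp only [krawA, coords, LinearMap.coe_mk, AddHom.coe_mk]
      by_cases h1 : (i : ℕ) + 1 = j
      · have h2 : ¬ ((j : ℕ) + 1 = i) := by omega
        rw [if_pos h1, if_pos h1.symm, if_neg h2, ← h1, add_zero]
      · have h1' : ¬ ((j : ℕ) = (i : ℕ) + 1) := fun h => h1 h.symm
        rw [if_neg h1, if_neg h1', zero_add]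
        by_cases h2 : (j : ℕ) + 1 = i
        · rw [if_pos h2, if_pos h2, ← h2, Nat.add_sub_cancel]
        · rw [if_neg h2, if_neg h2, zero_mul]
    rw [Finset.sum_congr rfl fun j _ => hf j, Finset.sum_add_distrib]
    congr 1
    · by_cases h : (i : ℕ) + 1 < d + 1
      · rw [dif_pos h, Finset.sum_eq_single (⟨(i : ℕ) + 1, h⟩ : Fin (d + 1))]
        · simp
        · intro j _ hj
          rw [if_neg]
          intro h3; exact hj (Fin.ext h3)
        · intro h3; exact absurd (Finset.mem_univ _) h3
      · rw [dif_neg h]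
        refine Finset.sum_eq_zero fun j _ => ?_
        rw [if_neg]
        have := j.2
        omega
    · by_cases h : 0 < (i : ℕ)
      · rw [dif_pos h, Finset.sum_eq_single (⟨(i : ℕ) - 1, by omega⟩ : Fin (d + 1))]
        · rw [if_pos]
          simp only
          omega
        · intro j _ hj
          rw [if_neg]
          intro h3; exact hj (Fin.ext (by simp only; omega))
        · intro h3; exact absurd (Finset.mem_univ _) h3
      · rw [dif_neg h]
        refine Finset.sum_eq_zero fun j _ => ?_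
        rw [if_neg]
        omega
  rw [hsum]
  simp only [coords, opA, LinearMap.coe_mk, AddHom.coe_mk]
  rw [coeff_add, coeff_derivative, add_div]
  congr 1
  · by_cases h : (i : ℕ) + 1 < d + 1
    · rw [dif_pos h]
      have hc := Nat.choose_succ_right_eq d i
      have hc' : (Nat.choose d (i + 1) : K) * ((i : ℕ) + 1) =
          Nat.choose d i * ((d - (i : ℕ) : ℕ) : K) := by exact_mod_cast hc
      have h1 := hch i (by omega)
      have h2 := hch (i + 1) (by omega)
      rw [mul_div_assoc', div_eq_div_iff h2 h1]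
      linear_combination (- p.coeff ((i : ℕ) + 1)) * hc'
    · rw [dif_neg h]
      have hid : (i : ℕ) = d := by omega
      rw [coeff_eq_zero_of_natDegree_lt (by omega)]
      simp
  · by_cases h : 0 < (i : ℕ)
    · rw [dif_pos h]
      obtain ⟨m, hm⟩ : ∃ m, (i : ℕ) = m + 1 := ⟨i - 1, by omega⟩
      rw [hm, Nat.add_sub_cancel, coeff_X_mul, coeff_sub, coeff_C_mul]
      have hco : (X * derivative p).coeff m = (m : K) * p.coeff m := by
        rcases m with _ | k
        · simp
        · rw [coeff_X_mul, coeff_derivative]; push_cast; ring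
      rw [hco]
      have hc := Nat.choose_succ_right_eq d m
      have hmd : m ≤ d := by omega
      have hc' : (Nat.choose d (m + 1) : K) * ((m : K) + 1) =
          Nat.choose d m * ((d : K) - m) := by
        have : ((d - m : ℕ) : K) = (d : K) - m := by push_cast [hmd]; ring
        rw [← this]
        exact_mod_cast hc
      have h1 := hch m hmd
      have h2 := hch (m + 1) (by omega)
      rw [← sub_mul, mul_div_assoc', div_eq_div_iff h1 h2]
      push_cast
      linear_combination (p.coeff m) * hc'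
    · rw [dif_neg h]
      have : (i : ℕ) = 0 := by omega
      rw [this]
      simp

/-- The product `u^(d-k) v^k`. -/
noncomputable def bip (u v : K[X]) (d k : ℕ) : K[X] := u ^ (d - k) * v ^ k

lemma natDegree_bip {u v : K[X]} (hu : u.natDegree ≤ 1) (hv : v.natDegree ≤ 1) {d k : ℕ}
    (hk : k ≤ d) : (bip u v d k).natDegree ≤ d := by
  refine (natDegree_mul_le).trans ?_
  have h1 : (u ^ (d - k)).natDegree ≤ (d - k) * 1 :=
    (natDegree_pow_le).trans (Nat.mul_le_mul_left _ hu)
  have h2 : (v ^ k).natDegree ≤ k * 1 :=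
    (natDegree_pow_le).trans (Nat.mul_le_mul_left _ hv)
  omega

lemma pow_pred_mul (u : K[X]) (m : ℕ) (q : K[X]) :
    C (m : K) * u ^ (m - 1) * (u * q) = C (m : K) * u ^ m * q := by
  rcases m with _ | m
  · simp
  · rw [Nat.add_sub_cancel, pow_succ]; ring

lemma derivative_bip (u v : K[X]) (m n : ℕ) :
    derivative (u ^ m * v ^ n) = C (m : K) * u ^ (m - 1) * v ^ n * derivative u +
      C (n : K) * u ^ m * v ^ (n - 1) * derivative v := by
  rw [derivative_mul, derivative_pow, derivative_pow]
  ring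

lemma opB_bip (u v : K[X]) (m n : ℕ) :
    opB K (m + n) (u ^ m * v ^ n) =
      C (m : K) * u ^ (m - 1) * v ^ n * opB K 1 u +
      C (n : K) * u ^ m * v ^ (n - 1) * opB K 1 v := by
  have h1 := pow_pred_mul u m (v ^ n)
  have h2 := pow_pred_mul v n (u ^ m)
  simp only [opB, derivative_bip]
  push_cast
  rw [C_add]
  simp only [C_1]
  linear_combination (-1 : K[X]) * h1 - h2

lemma opA_bip (u v : K[X]) (m n : ℕ) :
    opA K (m + n) (u ^ m * v ^ n) =
      C (m : K) * u ^ (m - 1) * v ^ n * opA K 1 u +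
      C (n : K) * u ^ m * v ^ (n - 1) * opA K 1 v := by
  have h1 := pow_pred_mul u m (v ^ n)
  have h2 := pow_pred_mul v n (u ^ m)
  simp only [opA, derivative_bip]
  push_cast
  rw [C_add]
  simp only [C_1]
  linear_combination (-X : K[X]) * h1 - X * h2

/-- Action of a derivation on the products `u^(d-k) v^k`. -/
lemma act_bip {u v : K[X]} {D : ℕ → K[X] → K[X]}
    (hD : ∀ m n : ℕ, D (m + n) (u ^ m * v ^ n) = C (m : K) * u ^ (m - 1) * v ^ n * D 1 u +
      C (n : K) * u ^ m * v ^ (n - 1) * D 1 v)
    {α β γ δ : K} (h1 : D 1 u = C α * u + C β * v) (h2 : D 1 v = C γ * u + C δ * v)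
    {d k : ℕ} (hk : k ≤ d) :
    D d (bip u v d k) = C (((d - k : ℕ) : K) * α + (k : K) * δ) * bip u v d k +
      C (((d - k : ℕ) : K) * β) * bip u v d (k + 1) + C ((k : K) * γ) * bip u v d (k - 1) := by
  obtain ⟨m, rfl⟩ : ∃ m, d = m + k := ⟨d - k, by omega⟩
  rw [Nat.add_sub_cancel]
  simp only [bip]
  rw [Nat.add_sub_cancel, hD, h1, h2]
  have e1 := pow_pred_mul u m (v ^ k)
  have e2 := pow_pred_mul v k (u ^ m)
  have e3 : C ((m : K) * β) * (u ^ (m + k - (k + 1)) * v ^ (k + 1)) =
      C (m : K) * C β * u ^ (m - 1) * v ^ (k + 1) := by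
    rcases m with _ | m
    · simp
    · rw [show m + 1 + k - (k + 1) = m by omega, Nat.add_sub_cancel, C_mul]; ring
  have e4 : C ((k : K) * γ) * (u ^ (m + k - (k - 1)) * v ^ (k - 1)) =
      C (k : K) * C γ * u ^ (m + 1) * v ^ (k - 1) := by
    rcases k with _ | k
    · simp
    · rw [show m + (k + 1) - (k + 1 - 1) = m + 1 by omega, Nat.add_sub_cancel, C_mul]; ring
  rw [e3, e4]
  simp only [C_add, C_mul]
  rw [pow_succ v k, pow_succ u m]
  linear_combination (C α) * e1 + (C δ) * e2

/-- The explicit tridiagonal matrix with parameters `α, β, γ, δ`. -/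
def triM (d : ℕ) (α β γ δ : K) : Matrix (Fin (d + 1)) (Fin (d + 1)) K := fun j i =>
  (if (j : ℕ) = i then ((d - (i : ℕ) : ℕ) : K) * α + ((i : ℕ) : K) * δ else 0) +
  (if (j : ℕ) = (i : ℕ) + 1 then ((d - (i : ℕ) : ℕ) : K) * β else 0) +
  (if (j : ℕ) + 1 = (i : ℕ) then ((i : ℕ) : K) * γ else 0)

lemma triM_diag (d : ℕ) (α δ : K) : IsDiagonal (triM d α 0 0 δ) := by
  intro i j hij
  have h : ¬ ((i : ℕ) = j) := fun h => hij (Fin.ext h)
  simp [triM, h]

lemma triM_irred [CharZero K] (d : ℕ) {α β γ δ : K} (hβ : β ≠ 0) (hγ : γ ≠ 0) :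
    IrredTridiag (triM d α β γ δ) := by
  refine ⟨?_, ?_⟩
  · intro i j hij
    simp only [triM]
    rw [if_neg (by omega), if_neg (by omega), if_neg (by omega)]
    simp
  · intro i j hij
    simp only [triM]
    have hi := i.2
    have hj := j.2
    rcases hij with h | h
    · rw [if_neg (by omega), if_neg (by omega), if_pos h]
      simp only [zero_add]
      refine mul_ne_zero ?_ hγ
      rw [← h]; exact_mod_cast Nat.succ_ne_zero (i : ℕ)
    · rw [if_neg (by omega), if_pos h.symm, if_neg (by omega)]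
      simp only [zero_add, add_zero]
      refine mul_ne_zero ?_ hβ
      have : d - (j : ℕ) ≠ 0 := by omega
      exact_mod_cast this

lemma toMatrix_eq {d : ℕ} (b : Module.Basis (Fin (d + 1)) K (Fin (d + 1) → K))
    (w : ℕ → (Fin (d + 1) → K)) (hb : ∀ i : Fin (d + 1), b i = w i)
    (X : Matrix (Fin (d + 1)) (Fin (d + 1)) K) (α β γ δ : K)
    (hX : ∀ i : ℕ, i ≤ d → X.mulVec (w i) = (((d - i : ℕ) : K) * α + (i : K) * δ) • w i +
      (((d - i : ℕ) : K) * β) • w (i + 1) + ((i : K) * γ) • w (i - 1)) :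
    LinearMap.toMatrix b b (Matrix.toLin' X) = triM d α β γ δ := by
  have h1 : Matrix.toLin' X = Matrix.toLin b b (triM d α β γ δ) := by
    refine b.ext fun i => ?_
    rw [Matrix.toLin_self, Matrix.toLin'_apply]
    have hi : (i : ℕ) ≤ d := Nat.lt_succ_iff.1 i.2
    rw [hb, hX i hi]
    simp only [triM, add_smul, ite_smul, zero_smul, hb]
    rw [Finset.sum_add_distrib, Finset.sum_add_distrib]
    congr 1
    · congr 1
      · rw [Finset.sum_eq_single i]
        · rw [if_pos rfl]
        · intro j _ hj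
          rw [if_neg (fun h => hj (Fin.ext h))]
        · intro h; exact absurd (Finset.mem_univ _) h
      · by_cases h : (i : ℕ) + 1 < d + 1
        · rw [Finset.sum_eq_single (⟨(i : ℕ) + 1, h⟩ : Fin (d + 1))]
          · rw [if_pos rfl]
          · intro j _ hj
            rw [if_neg (fun h => hj (Fin.ext h))]
          · intro h; exact absurd (Finset.mem_univ _) h
        · have h2 : d - (i : ℕ) = 0 := by omega
          rw [h2, Finset.sum_eq_zero]
          · simp
          · intro j _
            have := j.2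
            rw [if_neg (by omega)]
    · by_cases h : 0 < (i : ℕ)
      · rw [Finset.sum_eq_single (⟨(i : ℕ) - 1, by omega⟩ : Fin (d + 1))]
        · rw [if_pos (by simp only; omega)]
        · intro j _ hj
          rw [if_neg (fun h => hj (Fin.ext (by simp only; omega)))]
        · intro h; exact absurd (Finset.mem_univ _) h
      · have h2 : (i : ℕ) = 0 := by omega
        rw [Finset.sum_eq_zero]
        · rw [h2]; simp
        · intro j _
          rw [if_neg (by omega)]
  rw [h1, LinearMap.toMatrix_toLin]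

lemma coords_ne_zero [CharZero K] {d : ℕ} {p : K[X]} (hp : p ≠ 0) (hd : p.natDegree ≤ d) :
    coords K d p ≠ 0 := by
  intro h
  have h1 := congrFun h ⟨p.natDegree, Nat.lt_succ_iff.2 hd⟩
  simp only [coords, LinearMap.coe_mk, AddHom.coe_mk, Pi.zero_apply, div_eq_zero_iff] at h1
  rcases h1 with h1 | h1
  · exact hp (leadingCoeff_eq_zero.1 h1)
  · exact (Nat.choose_pos hd).ne' (by exact_mod_cast h1)

/-- The Krawtchouk pair in the basis `u^(d-k) v^k`. -/
lemma exists_basis [CharZero K] (d : ℕ) {u v : K[X]} (hu : u.natDegree ≤ 1)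
    (hv : v.natDegree ≤ 1) (hu0 : u ≠ 0) (hv0 : v ≠ 0) {α β γ δ α' β' γ' δ' : K}
    (hA1 : opA K 1 u = C α * u + C β * v) (hA2 : opA K 1 v = C γ * u + C δ * v)
    (hB1 : opB K 1 u = C α' * u + C β' * v) (hB2 : opB K 1 v = C γ' * u + C δ' * v)
    (x y : K) {lam : K} (hlam : lam ≠ 0)
    (z1 : x * α + y * α' = lam) (z2 : x * β + y * β' = 0) (z3 : x * γ + y * γ' = 0)
    (z4 : x * δ + y * δ' = -lam) :
    ∃ b : Module.Basis (Fin (d + 1)) K (Fin (d + 1) → K),
      ∀ s t : K, rep b (s • krawA K d + t • krawB K d) =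
        triM d (s * α + t * α') (s * β + t * β') (s * γ + t * γ') (s * δ + t * δ') := by
  classical
  let w : ℕ → (Fin (d + 1) → K) := fun k => coords K d (bip u v d k)
  have hA : ∀ i : ℕ, i ≤ d → (krawA K d).mulVec (w i) =
      (((d - i : ℕ) : K) * α + (i : K) * δ) • w i +
      (((d - i : ℕ) : K) * β) • w (i + 1) + ((i : K) * γ) • w (i - 1) := by
    intro i hi
    simp only [w]
    rw [opA_coords d _ (natDegree_bip hu hv hi), act_bip (opA_bip u v) hA1 hA2 hi]
    simp only [← smul_eq_C_mul]
    rw [map_add, map_add, map_smul, map_smul, map_smul]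
  have hB : ∀ i : ℕ, i ≤ d → (krawB K d).mulVec (w i) =
      (((d - i : ℕ) : K) * α' + (i : K) * δ') • w i +
      (((d - i : ℕ) : K) * β') • w (i + 1) + ((i : K) * γ') • w (i - 1) := by
    intro i hi
    simp only [w]
    rw [opB_coords d _, act_bip (opB_bip u v) hB1 hB2 hi]
    simp only [← smul_eq_C_mul]
    rw [map_add, map_add, map_smul, map_smul, map_smul]
  have hZ : ∀ s t : K, ∀ i : ℕ, i ≤ d → (s • krawA K d + t • krawB K d).mulVec (w i) =
      (((d - i : ℕ) : K) * (s * α + t * α') + (i : K) * (s * δ + t * δ')) • w i +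
      (((d - i : ℕ) : K) * (s * β + t * β')) • w (i + 1) +
      ((i : K) * (s * γ + t * γ')) • w (i - 1) := by
    intro s t i hi
    rw [Matrix.add_mulVec, Matrix.smul_mulVec, Matrix.smul_mulVec, hA i hi, hB i hi]
    module
  have hw0 : ∀ i : ℕ, i ≤ d → w i ≠ 0 := by
    intro i hi
    exact coords_ne_zero (mul_ne_zero (pow_ne_zero _ hu0) (pow_ne_zero _ hv0))
      (natDegree_bip hu hv hi)
  let θ : Fin (d + 1) → K := fun i => ((d : K) - 2 * (i : ℕ)) * lam
  have hθ : Function.Injective θ := by
    intro i j hij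
    simp only [θ] at hij
    have h1 := mul_right_cancel₀ hlam hij
    have h2 : ((i : ℕ) : K) = ((j : ℕ) : K) := by
      have h3 : (2 : K) ≠ 0 := two_ne_zero
      have h4 : (2 : K) * (i : ℕ) = 2 * (j : ℕ) := by linear_combination -h1
      exact mul_left_cancel₀ h3 h4
    exact Fin.ext (by exact_mod_cast h2)
  have heig : ∀ i : Fin (d + 1), Module.End.HasEigenvector
      (Matrix.toLin' (x • krawA K d + y • krawB K d)) (θ i) (w i) := by
    intro i
    have hi : (i : ℕ) ≤ d := Nat.lt_succ_iff.1 i.2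
    rw [Module.End.hasEigenvector_iff, Module.End.mem_eigenspace_iff]
    refine ⟨?_, hw0 i hi⟩
    rw [Matrix.toLin'_apply, hZ x y i hi, z1, z2, z3, z4]
    simp only [mul_zero, zero_smul, add_zero, θ]
    congr 1
    push_cast [hi]
    ring
  have hli : LinearIndependent K (fun i : Fin (d + 1) => w i) :=
    Module.End.eigenvectors_linearIndependent' _ θ hθ _ heig
  refine ⟨basisOfLinearIndependentOfCardEqFinrank hli (by simp), fun s t => ?_⟩
  exact toMatrix_eq _ w (fun i => by simp) _ _ _ _ _ (hZ s t)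

end Pool.Agent.Q87.Krawtchouk
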