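import Pool.Agent.Q87.Leonard.Krawtchouk

/-!
# Leonard pairs given by explicit matrices
-/

namespace Pool.Agent.Q87.Krawtchouk

/-- `(X, Y)` is a Leonard pair on `K^n`. -/
def LeonardPair {K : Type*} [Field K] {n : ℕ} (X Y : Matrix (Fin n) (Fin n) K) : Prop :=
  (∃ b : Module.Basis (Fin n) K (Fin n → K), IsDiagonal (rep b X) ∧ IrredTridiag (rep b Y)) ∧
  (∃ b : Module.Basis (Fin n) K (Fin n → K), IsDiagonal (rep b Y) ∧ IrredTridiag (rep b X))

variable {K : Type*} [Field K]

/-- The basis formed by the columns of an invertible matrix. -/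
lemma exists_basis_of_mul_eq_one {n : ℕ} (P Q : Matrix (Fin n) (Fin n) K) (h : P * Q = 1) :
    ∃ b : Module.Basis (Fin n) K (Fin n → K), ∀ X, rep b X = Q * X * P := by
  classical
  have h' : Q * P = 1 := mul_eq_one_comm.1 h
  let e : (Fin n → K) ≃ₗ[K] (Fin n → K) :=
    LinearEquiv.ofLinearMap (Matrix.toLin' Q) (Matrix.toLin' P)
      (by rw [← Matrix.toLin'_mul, h', Matrix.toLin'_one])
      (by rw [← Matrix.toLin'_mul, h, Matrix.toLin'_one])
  let b : Module.Basis (Fin n) K (Fin n → K) := Module.Basis.ofEquivFun e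
  refine ⟨b, fun X => ?_⟩
  ext i j
  rw [rep, LinearMap.toMatrix_apply]
  have hb : b j = P.mulVec (Pi.single j 1) := by
    simp only [b, Module.Basis.coe_ofEquivFun]
    rfl
  have hr : ∀ y, b.repr y i = Q.mulVec y i := fun y => by
    rw [← Module.Basis.equivFun_apply]
    simp only [b, Module.Basis.equivFun_ofEquivFun]
    rfl
  rw [hr, hb, Matrix.toLin'_apply, Matrix.mulVec_mulVec, Matrix.mulVec_mulVec,
    Matrix.mulVec_single_one]
  rfl

/-- If `b` diagonalises a diagonal matrix with distinct diagonal entries, then `b` is obtained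
from the standard basis by permuting and scaling. -/
lemma exists_perm_of_diag {n : ℕ} (x : Fin n → K) (hx : Function.Injective x)
    (b : Module.Basis (Fin n) K (Fin n → K)) (hb : IsDiagonal (rep b (Matrix.diagonal x))) :
    ∃ (π : Fin n → Fin n) (c : Fin n → K), Function.Injective π ∧ (∀ j, c j ≠ 0) ∧
      (∀ j, b j = Pi.single (π j) (c j)) ∧
      ∀ (W : Matrix (Fin n) (Fin n) K) i j, rep b W i j * c i = c j * W (π i) (π j) := by
  classical
  have hrep : ∀ (W : Matrix (Fin n) (Fin n) K) j, W.mulVec (b j) = ∑ i, rep b W i j • b i := by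
    intro W j
    have := b.sum_repr (W.mulVec (b j))
    rw [← this]
    refine Finset.sum_congr rfl fun i _ => ?_
    rw [rep, LinearMap.toMatrix_apply, Matrix.toLin'_apply]
  have heig : ∀ j k, x k * b j k = rep b (Matrix.diagonal x) j j * b j k := by
    intro j k
    have h1 := congrFun (hrep (Matrix.diagonal x) j) k
    rw [Matrix.mulVec_diagonal, Finset.sum_apply, Finset.sum_eq_single j] at h1
    · rw [h1]; rfl
    · intro i _ hi
      rw [hb i j hi]; simp
    · intro h; exact absurd (Finset.mem_univ _) h
  have hne : ∀ j, ∃ k, b j k ≠ 0 := by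
    intro j
    by_contra hcon
    push Not at hcon
    exact b.ne_zero j (funext hcon)
  choose π hπ using hne
  have hsupp : ∀ j k, k ≠ π j → b j k = 0 := by
    intro j k hk
    by_contra h0
    have h1 := mul_right_cancel₀ h0 (heig j k)
    have h2 := mul_right_cancel₀ (hπ j) (heig j (π j))
    exact hk (hx (h1.trans h2.symm))
  have hsingle : ∀ j, b j = Pi.single (π j) (b j (π j)) := by
    intro j
    funext k
    by_cases hk : k = π j
    · subst hk; simp
    · rw [hsupp j k hk, Pi.single_eq_of_ne hk]
  have hinj : Function.Injective π := by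
    intro i j hij
    by_contra hne
    have hli := b.linearIndependent
    have h1 : b j (π j) • b i = b i (π i) • b j := by
      funext k
      simp only [Pi.smul_apply, smul_eq_mul]
      by_cases hk : k = π j
      · subst hk
        rw [← hij]; ring
      · rw [hsupp j k hk, hsupp i k (by rw [hij]; exact hk)]; ring
    have h2 := congrArg (fun y => b.repr y i) h1
    simp only [map_smul, Module.Basis.repr_self, Finsupp.smul_apply, Finsupp.single_eq_same,
      smul_eq_mul, mul_one] at h2
    rw [Finsupp.single_eq_of_ne hne, mul_zero] at h2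
    exact hπ j h2
  refine ⟨π, fun j => b j (π j), hinj, hπ, hsingle, ?_⟩
  intro W i j
  have h1 := congrFun (hrep W j) (π i)
  rw [Finset.sum_apply, Finset.sum_eq_single i] at h1
  · rw [Pi.smul_apply, smul_eq_mul] at h1
    rw [← h1]
    conv_lhs => rw [hsingle j]
    rw [Matrix.mulVec_single]
    simp [mul_comm]
  · intro k _ hk
    rw [Pi.smul_apply, smul_eq_mul, hsupp k (π i) (fun h => hk (hinj h.symm)), mul_zero]
  · intro h; exact absurd (Finset.mem_univ _) h

end Pool.Agent.Q87.Krawtchouk
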