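import Pool.Agent.Q87.Leonard.Pair

/-!
# The irreducible modules of sl2 and polynomials
-/

namespace Pool.Agent.Q87.Krawtchouk

open Polynomial

/-- The matrix of `e` on the `(d + 1)`-dimensional irreducible module of sl2. -/
def slE (K : Type*) [Field K] (d : ℕ) : Matrix (Fin (d + 1)) (Fin (d + 1)) K :=
  fun i j => if (i : ℕ) + 1 = j then ((d - (i : ℕ) : ℕ) : K) else 0

/-- The matrix of `f` on the `(d + 1)`-dimensional irreducible module of sl2. -/
def slF (K : Type*) [Field K] (d : ℕ) : Matrix (Fin (d + 1)) (Fin (d + 1)) K :=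
  fun i j => if (j : ℕ) + 1 = i then (((i : ℕ)) : K) else 0

variable {K : Type*} [Field K]

/-- The differential operator of `e`. -/
noncomputable def opE (K : Type*) [Field K] (_ : ℕ) (p : K[X]) : K[X] := derivative p

/-- The differential operator of `f`. -/
noncomputable def opF (K : Type*) [Field K] (d : ℕ) (p : K[X]) : K[X] :=
  X * (C (d : K) * p - X * derivative p)

lemma opE_coords [CharZero K] (d : ℕ) (p : K[X]) (hp : p.natDegree ≤ d) :
    (slE K d).mulVec (coords K d p) = coords K d (opE K d p) := by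
  funext i
  have hi := i.2
  have hch : ∀ k, k ≤ d → (Nat.choose d k : K) ≠ 0 := by
    intro k hk
    exact_mod_cast (Nat.choose_pos hk).ne'
  have hsum : (slE K d).mulVec (coords K d p) i =
      (if h : (i : ℕ) + 1 < d + 1 then ((d - (i : ℕ) : ℕ) : K) *
        (p.coeff (i + 1) / (Nat.choose d (i + 1) : K)) else 0) := by
    rw [Matrix.mulVec, dotProduct]
    by_cases h : (i : ℕ) + 1 < d + 1
    · rw [dif_pos h, Finset.sum_eq_single (⟨(i : ℕ) + 1, h⟩ : Fin (d + 1))]
      · simp [slE, coords]
      · intro j _ hj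
        have : ¬ ((i : ℕ) + 1 = j) := fun h3 => hj (Fin.ext h3.symm)
        simp [slE, this]
      · intro h3; exact absurd (Finset.mem_univ _) h3
    · rw [dif_neg h]
      refine Finset.sum_eq_zero fun j _ => ?_
      have := j.2
      have : ¬ ((i : ℕ) + 1 = j) := by omega
      simp [slE, this]
  rw [hsum]
  simp only [coords, opE, LinearMap.coe_mk, AddHom.coe_mk]
  rw [coeff_derivative]
  by_cases h : (i : ℕ) + 1 < d + 1
  · rw [dif_pos h]
    have hc := Nat.choose_succ_right_eq d i
    have hc' : (Nat.choose d (i + 1) : K) * ((i : ℕ) + 1) =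
        Nat.choose d i * ((d - (i : ℕ) : ℕ) : K) := by exact_mod_cast hc
    have h1 := hch i (by omega)
    have h2 := hch (i + 1) (by omega)
    rw [mul_div_assoc', div_eq_div_iff h2 h1]
    linear_combination (- p.coeff ((i : ℕ) + 1)) * hc'
  · rw [dif_neg h]
    have hid : (i : ℕ) = d := by omega
    rw [coeff_eq_zero_of_natDegree_lt (by omega)]
    simp

lemma opF_coords [CharZero K] (d : ℕ) (p : K[X]) :
    (slF K d).mulVec (coords K d p) = coords K d (opF K d p) := by
  funext i
  have hi := i.2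
  have hch : ∀ k, k ≤ d → (Nat.choose d k : K) ≠ 0 := by
    intro k hk
    exact_mod_cast (Nat.choose_pos hk).ne'
  have hsum : (slF K d).mulVec (coords K d p) i =
      (if h : 0 < (i : ℕ) then ((i : ℕ) : K) *
        (p.coeff (i - 1) / (Nat.choose d (i - 1) : K)) else 0) := by
    rw [Matrix.mulVec, dotProduct]
    by_cases h : 0 < (i : ℕ)
    · rw [dif_pos h, Finset.sum_eq_single (⟨(i : ℕ) - 1, by omega⟩ : Fin (d + 1))]
      · have : (i : ℕ) - 1 + 1 = i := by omega
        simp [slF, coords, this]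
      · intro j _ hj
        have : ¬ ((j : ℕ) + 1 = i) := fun h3 => hj (Fin.ext (by simp only; omega))
        simp [slF, this]
      · intro h3; exact absurd (Finset.mem_univ _) h3
    · rw [dif_neg h]
      refine Finset.sum_eq_zero fun j _ => ?_
      have : ¬ ((j : ℕ) + 1 = i) := by omega
      simp [slF, this]
  rw [hsum]
  simp only [coords, opF, LinearMap.coe_mk, AddHom.coe_mk]
  by_cases h : 0 < (i : ℕ)
  · rw [dif_pos h]
    obtain ⟨m, hm⟩ : ∃ m, (i : ℕ) = m + 1 := ⟨i - 1, by omega⟩
    rw [hm, Nat.add_sub_cancel, coeff_X_mul, coeff_sub, coeff_C_mul]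
    have hco : (X * derivative p).coeff m = (m : K) * p.coeff m := by
      rcases m with _ | k
      · simp
      · rw [coeff_X_mul, coeff_derivative]; push_cast; ring
    rw [hco]
    have hc := Nat.choose_succ_right_eq d m
    have hmd : m ≤ d := by omega
    have hc' : (Nat.choose d (m + 1) : K) * ((m : K) + 1) =
        Nat.choose d m * ((d : K) - m) := by
      have : ((d - m : ℕ) : K) = (d : K) - m := by push_cast [hmd]; ring
      rw [← this]
      exact_mod_cast hc
    have h1 := hch m hmd
    have h2 := hch (m + 1) (by omega)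
    rw [← sub_mul, mul_div_assoc', div_eq_div_iff h1 h2]
    push_cast
    linear_combination (p.coeff m) * hc'
  · rw [dif_neg h]
    have : (i : ℕ) = 0 := by omega
    rw [this]
    simp

lemma opE_bip (u v : K[X]) (m n : ℕ) :
    opE K (m + n) (u ^ m * v ^ n) =
      C (m : K) * u ^ (m - 1) * v ^ n * opE K 1 u +
      C (n : K) * u ^ m * v ^ (n - 1) * opE K 1 v := by
  simp only [opE, derivative_bip]

lemma opF_bip (u v : K[X]) (m n : ℕ) :
    opF K (m + n) (u ^ m * v ^ n) =
      C (m : K) * u ^ (m - 1) * v ^ n * opF K 1 u +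
      C (n : K) * u ^ m * v ^ (n - 1) * opF K 1 v := by
  have h1 := pow_pred_mul u m (v ^ n)
  have h2 := pow_pred_mul v n (u ^ m)
  simp only [opF, derivative_bip]
  push_cast
  rw [C_add]
  simp only [C_1]
  linear_combination (-X : K[X]) * h1 - X * h2

/-- The matrix of `s e + t f + r h`. -/
def slM (K : Type*) [Field K] (d : ℕ) (s t r : K) : Matrix (Fin (d + 1)) (Fin (d + 1)) K :=
  s • slE K d + t • slF K d + r • krawB K d

/-- Elements of sl2 in the basis `u^(d-k) v^k`, where `u, v` are eigenvectors of one of them. -/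
lemma exists_basis_sl [CharZero K] (d : ℕ) {u v : K[X]} (hu : u.natDegree ≤ 1)
    (hv : v.natDegree ≤ 1) (hu0 : u ≠ 0) (hv0 : v ≠ 0) {αe βe γe δe αf βf γf δf α β γ δ : K}
    (hE1 : opE K 1 u = C αe * u + C βe * v) (hE2 : opE K 1 v = C γe * u + C δe * v)
    (hF1 : opF K 1 u = C αf * u + C βf * v) (hF2 : opF K 1 v = C γf * u + C δf * v)
    (hB1 : opB K 1 u = C α * u + C β * v) (hB2 : opB K 1 v = C γ * u + C δ * v)
    (x y z : K) {lam : K} (hlam : lam ≠ 0)
    (z1 : x * αe + y * αf + z * α = lam) (z2 : x * βe + y * βf + z * β = 0)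
    (z3 : x * γe + y * γf + z * γ = 0) (z4 : x * δe + y * δf + z * δ = -lam) :
    ∃ b : Module.Basis (Fin (d + 1)) K (Fin (d + 1) → K),
      ∀ s t r : K, rep b (slM K d s t r) =
        triM d (s * αe + t * αf + r * α) (s * βe + t * βf + r * β)
          (s * γe + t * γf + r * γ) (s * δe + t * δf + r * δ) := by
  classical
  let w : ℕ → (Fin (d + 1) → K) := fun k => coords K d (bip u v d k)
  have hE : ∀ i : ℕ, i ≤ d → (slE K d).mulVec (w i) =
      (((d - i : ℕ) : K) * αe + (i : K) * δe) • w i +
      (((d - i : ℕ) : K) * βe) • w (i + 1) + ((i : K) * γe) • w (i - 1) := by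
    intro i hi
    simp only [w]
    rw [opE_coords d _ (natDegree_bip hu hv hi), act_bip (opE_bip u v) hE1 hE2 hi]
    simp only [← smul_eq_C_mul]
    rw [map_add, map_add, map_smul, map_smul, map_smul]
  have hF : ∀ i : ℕ, i ≤ d → (slF K d).mulVec (w i) =
      (((d - i : ℕ) : K) * αf + (i : K) * δf) • w i +
      (((d - i : ℕ) : K) * βf) • w (i + 1) + ((i : K) * γf) • w (i - 1) := by
    intro i hi
    simp only [w]
    rw [opF_coords d _, act_bip (opF_bip u v) hF1 hF2 hi]
    simp only [← smul_eq_C_mul]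
    rw [map_add, map_add, map_smul, map_smul, map_smul]
  have hB : ∀ i : ℕ, i ≤ d → (krawB K d).mulVec (w i) =
      (((d - i : ℕ) : K) * α + (i : K) * δ) • w i +
      (((d - i : ℕ) : K) * β) • w (i + 1) + ((i : K) * γ) • w (i - 1) := by
    intro i hi
    simp only [w]
    rw [opB_coords d _, act_bip (opB_bip u v) hB1 hB2 hi]
    simp only [← smul_eq_C_mul]
    rw [map_add, map_add, map_smul, map_smul, map_smul]
  have hZ : ∀ s t r : K, ∀ i : ℕ, i ≤ d → (slM K d s t r).mulVec (w i) =
      (((d - i : ℕ) : K) * (s * αe + t * αf + r * α) +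
        (i : K) * (s * δe + t * δf + r * δ)) • w i +
      (((d - i : ℕ) : K) * (s * βe + t * βf + r * β)) • w (i + 1) +
      ((i : K) * (s * γe + t * γf + r * γ)) • w (i - 1) := by
    intro s t r i hi
    rw [slM, Matrix.add_mulVec, Matrix.add_mulVec, Matrix.smul_mulVec, Matrix.smul_mulVec,
      Matrix.smul_mulVec, hE i hi, hF i hi, hB i hi]
    module
  have hw0 : ∀ i : ℕ, i ≤ d → w i ≠ 0 := by
    intro i hi
    exact coords_ne_zero (mul_ne_zero (pow_ne_zero _ hu0) (pow_ne_zero _ hv0))
      (natDegree_bip hu hv hi)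
  let θ : Fin (d + 1) → K := fun i => ((d : K) - 2 * (i : ℕ)) * lam
  have hθ : Function.Injective θ := by
    intro i j hij
    simp only [θ] at hij
    have h1 := mul_right_cancel₀ hlam hij
    have h2 : ((i : ℕ) : K) = ((j : ℕ) : K) := by
      have h3 : (2 : K) ≠ 0 := two_ne_zero
      have h4 : (2 : K) * (i : ℕ) = 2 * (j : ℕ) := by linear_combination -h1
      exact mul_left_cancel₀ h3 h4
    exact Fin.ext (by exact_mod_cast h2)
  have heig : ∀ i : Fin (d + 1), Module.End.HasEigenvector
      (Matrix.toLin' (slM K d x y z)) (θ i) (w i) := by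
    intro i
    have hi : (i : ℕ) ≤ d := Nat.lt_succ_iff.1 i.2
    rw [Module.End.hasEigenvector_iff, Module.End.mem_eigenspace_iff]
    refine ⟨?_, hw0 i hi⟩
    rw [Matrix.toLin'_apply, hZ x y z i hi, z1, z2, z3, z4]
    simp only [mul_zero, zero_smul, add_zero, θ]
    congr 1
    push_cast [hi]
    ring
  have hli : LinearIndependent K (fun i : Fin (d + 1) => w i) :=
    Module.End.eigenvectors_linearIndependent' _ θ hθ _ heig
  refine ⟨basisOfLinearIndependentOfCardEqFinrank hli (by simp), fun s t r => ?_⟩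
  exact toMatrix_eq _ w (fun i => by simp) _ _ _ _ _ (hZ s t r)

end Pool.Agent.Q87.Krawtchouk
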